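import Pool.Agent.Q72.Ext.Main

/-!
# The bounded support point `F` of `S_A^0` of the ball of `ℂ²` is never an extreme point

Full (negative) answer to Q1 of MP_2eb075_an, for every `lam ∈ [1, 2)`.

Idea. Let `(x₀, y₀)` be the point of the unit circle where `lam x² + y² = a₀ x y²`, and
`ψ = z₁ - (x₀ / y₀²) z₂²`. For small real `e` of both signs the maps `G_e = F + e (ψ³, 0)` belong
to `S_A^0`: the autonomous vector field `h = (DG)⁻¹ A G` differs from that of `F` by `O(e |ψ|²)` in
the first component only, and `Re ⟨h_F(z), z⟩ ≥ κ |ψ(z)|²` on the ball. Since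
`F = (G_e + G_{-e}) / 2`, `F` is not extreme.
-/

set_option autoImplicit false

open Pool.Agent.Q72.Ext

namespace Pool.Agent.Results.MP_2eb075_an.NotExtreme

/-- For every `lam ∈ [1, 2)` the number `a₀` exists, the mapping `F` belongs to `S_A^0(B)`
and `F` is not an extreme point of `S_A^0(B)`. -/
theorem result (lam : ℝ) (h1 : 1 ≤ lam) (h2 : lam < 2) :
    ∃ a0 : ℝ, IsGreatest (admissible lam) a0 ∧
      (fun z : B => F lam a0 z) ∈ S0 lam ∧
      (fun z : B => F lam a0 z) ∉ Set.extremePoints ℝ (S0 lam) :=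
  main lam h1 h2

end Pool.Agent.Results.MP_2eb075_an.NotExtreme
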